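import Pool.Agent.Work.MP_209cb6_gt.B2.EndFinal

/-!
# Boundary measure of noncollapsed RCD(K,N) spaces without a volume constant: the full answer
-/

set_option autoImplicit false

open MeasureTheory MeasureTheory.Measure Metric Set
open scoped ENNReal

namespace Pool.Agent.Results.MP_209cb6_gt.BoundaryBound

open Pool.Agent.BDRY

universe u

/-- For every real `K` and every `N = n + 1 ≥ 1` there is a constant `C = C(K, N)` such that in
every noncollapsed `RCD(K,N)` space `(X, d, H^N)`, for every `x ∈ ∂X` and every `0 < r < 1`,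
`H^(N-1)(B_r(x) ∩ ∂X) ≤ C r^(N-1)`. -/
theorem result (K : ℝ) (n : ℕ) : ∃ C : ℝ, 0 < C ∧
    ∀ (X : Type u) [MetricSpace X] [MeasurableSpace X] [BorelSpace X],
      IsRCDG K (n + 1) X (μHE[n + 1] : Measure X) →
      ∀ x ∈ bdry n X, ∀ r : ℝ, 0 < r → r < 1 →
        (μHE[n] : Measure X) (ball x r ∩ bdry n X) ≤ ENNReal.ofReal (C * r ^ n) := by
  obtain ⟨C, hC, H⟩ := bdry_bound.{u} K n
  exact ⟨C, hC, fun X _ _ _ hX x _ r hr hr1 => H X hX x r hr hr1⟩

end Pool.Agent.Results.MP_209cb6_gt.BoundaryBound
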